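import Pool.Agent.Helper15.T8.Stmts

set_option autoImplicit false

/-!
MP_2f9829_co, T8: module SW1 (switching at a vertex of deficiency at least two).
-/

open Finset

namespace Pool.Agent.Helper1.T8

open Pool.Agent.Helper15.T8

theorem sw1_mem_GJ {n D : ℕ} {W : Finset (Fin n)} {j : ℕ} {E : Finset (Sym2 (Fin n))} :
    E ∈ GJ n D W j ↔ ((∀ e ∈ E, ¬ e.IsDiag) ∧ (∀ v, dg E v ≤ D) ∧ ∀ v ∈ W, dg E v = 0) ∧
      E.card = j := by
  simp [GJ, GW]

theorem sw1_nbr {n : ℕ} (E : Finset (Sym2 (Fin n))) (v : Fin n) :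
    ((univ : Finset (Fin n)).filter (fun x => s(v, x) ∈ E)).card = dg E v := by
  unfold dg
  refine Finset.card_bij (fun x _ => s(v, x)) ?_ ?_ ?_
  · intro x hx
    simp only [mem_filter, mem_univ, true_and] at hx
    simp [hx]
  · intro x _ y _ h
    exact Sym2.congr_right.1 h
  · intro e he
    rw [mem_filter] at he
    obtain ⟨y, rfl⟩ := he.2
    exact ⟨y, by simp [he.1], rfl⟩

theorem sw1_pairs {n : ℕ} (E : Finset (Sym2 (Fin n))) :
    ((univ : Finset (Fin n × Fin n)).filter (fun p => s(p.1, p.2) ∈ E)).card = ∑ v, dg E v := by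
  rw [Finset.card_filter, Fintype.sum_prod_type]
  refine Finset.sum_congr rfl fun v _ => ?_
  rw [← sw1_nbr E v, Finset.card_filter]

/-- The number of admissible ordered edges. -/
theorem sw1_low {n D j : ℕ} {E : Finset (Sym2 (Fin n))} (hD : ∀ v, dg E v ≤ D)
    (hs : ∑ v, dg E v = 2 * j) (v : Fin n) :
    2 * j ≤ ((univ : Finset (Fin n × Fin n)).filter (fun p => p.1 ≠ v ∧ p.2 ≠ v ∧
      s(p.1, p.2) ∈ E ∧ s(v, p.1) ∉ E)).card + (2 * D + D ^ 2) := by
  classical
  set G := (univ : Finset (Fin n × Fin n)).filter (fun p => p.1 ≠ v ∧ p.2 ≠ v ∧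
      s(p.1, p.2) ∈ E ∧ s(v, p.1) ∉ E) with hG
  set N := (univ : Finset (Fin n)).filter (fun x => s(v, x) ∈ E) with hN
  have hNc : N.card ≤ D := by rw [hN, sw1_nbr]; exact hD v
  set B1 := N.image (fun y => (v, y)) with hB1
  set B2 := N.image (fun y => (y, v)) with hB2
  set B3 := N.biUnion (fun x => ((univ : Finset (Fin n)).filter (fun y => s(x, y) ∈ E)).image
    (fun y => (x, y))) with hB3
  have hsub : (univ : Finset (Fin n × Fin n)).filter (fun p => s(p.1, p.2) ∈ E) ⊆
      G ∪ (B1 ∪ B2 ∪ B3) := by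
    rintro ⟨x, y⟩ hp
    simp only [mem_filter, mem_univ, true_and] at hp
    by_cases h1 : x = v
    · subst h1
      simp [hB1, hN, hp]
    by_cases h2 : y = v
    · subst h2
      have : s(y, x) ∈ E := by rw [Sym2.eq_swap]; exact hp
      simp [hB2, hN, this]
    by_cases h3 : s(v, x) ∈ E
    · simp [hB3, hN, h3, hp]
    · simp [hG, h1, h2, h3, hp]
  have c1 : B1.card ≤ D := Finset.card_image_le.trans hNc
  have c2 : B2.card ≤ D := Finset.card_image_le.trans hNc
  have c3 : B3.card ≤ D * D := by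
    refine (Finset.card_biUnion_le_card_mul _ _ D ?_).trans (Nat.mul_le_mul_right _ hNc)
    intro x _
    refine Finset.card_image_le.trans ?_
    rw [sw1_nbr]
    exact hD x
  have := Finset.card_le_card hsub
  rw [sw1_pairs, hs] at this
  have u1 := Finset.card_union_le G (B1 ∪ B2 ∪ B3)
  have u2 := Finset.card_union_le (B1 ∪ B2) B3
  have u3 := Finset.card_union_le B1 B2
  have : D * D = D ^ 2 := by ring
  omega

/-- The switched graph. -/
def sw {n : ℕ} (E : Finset (Sym2 (Fin n))) (v x y : Fin n) : Finset (Sym2 (Fin n)) :=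
  insert s(v, x) (E.erase s(x, y))

theorem sw_dg {n : ℕ} {E : Finset (Sym2 (Fin n))} {v x y : Fin n} (h3 : s(x, y) ∈ E)
    (h4 : s(v, x) ∉ E) (u : Fin n) :
    dg (sw E v x y) u + (if u ∈ s(x, y) then 1 else 0) = dg E u + (if u ∈ s(v, x) then 1 else 0) := by
  classical
  unfold dg sw
  have hn : s(v, x) ∉ (E.erase s(x, y)) := fun h => h4 (Finset.mem_of_mem_erase h)
  have hE : E = insert s(x, y) (E.erase s(x, y)) := (Finset.insert_erase h3).symm
  have e1 : ((insert s(v, x) (E.erase s(x, y))).filter (fun e => u ∈ e)).card =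
      ((E.erase s(x, y)).filter (fun e => u ∈ e)).card + (if u ∈ s(v, x) then 1 else 0) := by
    rw [Finset.filter_insert]
    split_ifs with h
    · rw [Finset.card_insert_of_notMem (fun h' => hn (Finset.mem_filter.1 h').1)]
    · rfl
  have e2 : (E.filter (fun e => u ∈ e)).card =
      ((E.erase s(x, y)).filter (fun e => u ∈ e)).card + (if u ∈ s(x, y) then 1 else 0) := by
    conv_lhs => rw [hE]
    rw [Finset.filter_insert]
    split_ifs with h
    · rw [Finset.card_insert_of_notMem (fun h' => Finset.notMem_erase _ _ (Finset.mem_filter.1 h').1)]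
    · rfl
  rw [e1, e2]
  ring

theorem sw_mem {n D : ℕ} {W : Finset (Fin n)} {j : ℕ} {E : Finset (Sym2 (Fin n))} {v x y : Fin n}
    (hE : E ∈ GJ n D W j) (hv : v ∉ W) (hd : dg E v + 2 ≤ D) (h1 : x ≠ v) (h2 : y ≠ v)
    (h3 : s(x, y) ∈ E) (h4 : s(v, x) ∉ E) :
    sw E v x y ∈ GJ n D W j ∧ dg (sw E v x y) v < D ∧ dg (sw E v x y) y < D ∧ y ∉ W ∧
      s(v, x) ∈ sw E v x y := by
  classical
  obtain ⟨⟨a1, a2, a3⟩, a4⟩ := sw1_mem_GJ.1 hE
  have hxy : x ≠ y := fun h => a1 _ h3 (by simp [h])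
  have hpos : ∀ u, u ∈ s(x, y) → 0 < dg E u := by
    intro u hu
    exact Finset.card_pos.2 ⟨_, Finset.mem_filter.2 ⟨h3, hu⟩⟩
  have hxW : x ∉ W := fun h => by
    have := hpos x (by simp)
    rw [a3 x h] at this
    exact lt_irrefl _ this
  have hyW : y ∉ W := fun h => by
    have := hpos y (by simp)
    rw [a3 y h] at this
    exact lt_irrefl _ this
  have hdg := sw_dg (E := E) (v := v) h3 h4
  have hcard : (sw E v x y).card = j := by
    unfold sw
    rw [Finset.card_insert_of_notMem (fun h => h4 (Finset.mem_of_mem_erase h)),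
      Finset.card_erase_of_mem h3, a4]
    have : 0 < E.card := Finset.card_pos.2 ⟨_, h3⟩
    omega
  have hv' := hdg v
  have hy' := hdg y
  simp only [Sym2.mem_iff, h1.symm, h2.symm, or_self, if_false, true_or, if_true, add_zero] at hv'
  simp only [Sym2.mem_iff, hxy.symm, h2, or_true, or_self, if_false, if_true, add_zero] at hy'
  refine ⟨sw1_mem_GJ.2 ⟨⟨?_, ?_, ?_⟩, hcard⟩, by omega, ?_, hyW, by simp [sw]⟩
  · intro e he
    unfold sw at he
    rw [Finset.mem_insert] at he
    rcases he with rfl | he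
    · simpa using h1.symm
    · exact a1 e (Finset.mem_of_mem_erase he)
  · intro u
    by_cases hu : u = v
    · subst hu; omega
    · have := hdg u
      by_cases hx : u = x
      · subst hx
        simp only [Sym2.mem_iff, true_or, or_true, if_true] at this
        have := a2 u
        omega
      · have h5 : u ∉ s(v, x) := by simp [hu, hx]
        rw [if_neg h5] at this
        have := a2 u
        omega
  · intro w hw
    have h5 : w ≠ v := fun h => hv (h ▸ hw)
    have h6 : w ≠ x := fun h => hxW (h ▸ hw)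
    have h7 := hdg w
    have h8 : w ∉ s(v, x) := by simp [h5, h6]
    rw [if_neg h8, a3 w hw] at h7
    omega
  · have := a2 y
    omega

theorem sw_inj {n : ℕ} {E E' : Finset (Sym2 (Fin n))} {v x y : Fin n}
    (h3 : s(x, y) ∈ E) (h4 : s(v, x) ∉ E) (h3' : s(x, y) ∈ E') (h4' : s(v, x) ∉ E')
    (h : sw E v x y = sw E' v x y) : E = E' := by
  classical
  have e1 : E.erase s(x, y) = E'.erase s(x, y) := by
    have := congrArg (fun F : Finset (Sym2 (Fin n)) => F.erase s(v, x)) h
    simp only [sw] at this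
    rwa [Finset.erase_insert (fun h => h4 (Finset.mem_of_mem_erase h)),
      Finset.erase_insert (fun h => h4' (Finset.mem_of_mem_erase h))] at this
  rw [← Finset.insert_erase h3, e1, Finset.insert_erase h3']

theorem def_card {n D : ℕ} {W : Finset (Fin n)} {E : Finset (Sym2 (Fin n))} {F : ℕ}
    (h : ∑ v ∈ Wᶜ, (D - dg E v) = F) : (Wᶜ.filter (fun v => dg E v < D)).card ≤ F := by
  rw [← h, Finset.card_filter]
  refine Finset.sum_le_sum fun v _ => ?_
  split_ifs with h1
  · omega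
  · omega

theorem st_SW1 (hB : ST_BAS) : ST_SW1 := by
  classical
  intro n D W j
  set A : Finset (Σ _ : Finset (Sym2 (Fin n)), Σ _ : Fin n, Fin n × Fin n) :=
    (GJ n D W j).sigma (fun E => (Wᶜ.filter (fun v => dg E v + 2 ≤ D)).sigma (fun v =>
      (univ : Finset (Fin n × Fin n)).filter (fun p => p.1 ≠ v ∧ p.2 ≠ v ∧
        s(p.1, p.2) ∈ E ∧ s(v, p.1) ∉ E))) with hA
  set A' : Finset (Σ _ : Finset (Sym2 (Fin n)), Σ _ : Fin n × Fin n, Fin n) :=
    (GJ n D W j).sigma (fun E => ((Wᶜ.filter (fun v => dg E v < D)) ×ˢ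
      (Wᶜ.filter (fun v => dg E v < D))).sigma (fun p =>
        (univ : Finset (Fin n)).filter (fun x => s(p.1, x) ∈ E))) with hA'
  have hle : A.card ≤ A'.card := by
    refine Finset.card_le_card_of_injOn (fun t => ⟨sw t.1 t.2.1 t.2.2.1 t.2.2.2,
      (t.2.1, t.2.2.2), t.2.2.1⟩) ?_ ?_
    · rintro ⟨E, v, x, y⟩ ht
      simp only [hA, coe_sigma, Set.mem_sigma_iff, mem_coe, mem_filter, mem_univ, true_and,
        mem_compl, mem_sigma] at ht
      obtain ⟨t1, ⟨t2, t3⟩, t4, t5, t6, t7⟩ := ht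
      obtain ⟨r1, r2, r3, r4, r5⟩ := sw_mem t1 t2 t3 t4 t5 t6 t7
      simp only [hA', mem_coe, mem_sigma, mem_product, mem_filter, mem_univ, true_and, mem_compl]
      exact ⟨r1, ⟨⟨t2, r2⟩, r4, r3⟩, r5⟩
    · rintro ⟨E, v, x, y⟩ ht ⟨E', v', x', y'⟩ ht' h
      simp only [hA, coe_sigma, Set.mem_sigma_iff, mem_coe, mem_filter, mem_univ, true_and,
        mem_compl, mem_sigma] at ht ht'
      obtain ⟨t1, ⟨t2, t3⟩, t4, t5, t6, t7⟩ := ht
      obtain ⟨t1', ⟨t2', t3'⟩, t4', t5', t6', t7'⟩ := ht'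
      simp only [Sigma.mk.injEq, Prod.mk.injEq, heq_eq_eq] at h
      obtain ⟨r1, ⟨r2, r3⟩, r4⟩ := h
      subst r2 r3 r4
      have := sw_inj t6 t7 t6' t7' r1
      subst this
      rfl
  have hup : A'.card ≤ (GJ n D W j).card * (FJ n D W j * FJ n D W j * D) := by
    rw [hA', Finset.card_sigma]
    refine (Finset.sum_le_card_nsmul _ _ (FJ n D W j * FJ n D W j * D) ?_).trans
      (by rw [smul_eq_mul])
    intro E hE
    have hF := def_card (hB n D W j E hE).2.1
    have h2 := (sw1_mem_GJ.1 hE).1.2.1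
    rw [Finset.card_sigma]
    refine (Finset.sum_le_card_nsmul _ _ D ?_).trans ?_
    · intro p _
      rw [sw1_nbr]
      exact h2 _
    · rw [smul_eq_mul, Finset.card_product]
      exact Nat.mul_le_mul_right _ (Nat.mul_le_mul hF hF)
  have hlow : (2 * (j : ℝ) - 2 * D - D ^ 2) *
    ∑ E ∈ GJ n D W j, (((Wᶜ.filter (fun v => dg E v + 2 ≤ D)).card : ℕ) : ℝ) ≤ (A.card : ℝ) := by
    rw [hA, Finset.card_sigma, Nat.cast_sum, Finset.mul_sum]
    refine Finset.sum_le_sum fun E hE => ?_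
    have h2 := (sw1_mem_GJ.1 hE).1.2.1
    rw [Finset.card_sigma, Nat.cast_sum, mul_comm, ← nsmul_eq_mul]
    refine Finset.card_nsmul_le_sum _ _ _ fun v _ => ?_
    have h3 := sw1_low h2 (hB n D W j E hE).2.2.2 v
    have h4 : ((2 * j : ℕ) : ℝ) ≤ ((((univ : Finset (Fin n × Fin n)).filter (fun p => p.1 ≠ v ∧
      p.2 ≠ v ∧ s(p.1, p.2) ∈ E ∧ s(v, p.1) ∉ E)).card + (2 * D + D ^ 2) : ℕ) : ℝ) := by
      exact_mod_cast h3
    push_cast at h4
    linarith
  refine hlow.trans ?_
  have h5 : (A.card : ℝ) ≤ (((GJ n D W j).card * (FJ n D W j * FJ n D W j * D) : ℕ) : ℝ) := by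
    exact_mod_cast hle.trans hup
  refine h5.trans (le_of_eq ?_)
  push_cast
  ring

end Pool.Agent.Helper1.T8
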